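import Mathlib
import Pool.Agent.T2h2.ClsX

/-!
# Proper solutions over Hilbertian fields which contain an ample field: kernels with nonabelian
composition factors whose outer automorphism groups are cyclic

The definitions of the class of homomorphisms are in the file `Pool/Agent/T2h2/Defs.lean`:

* `Factor k T`: `T` is a nonabelian simple group whose outer automorphism group is cyclic, and the
  field `k` contains a primitive root of unity of order `exp(Aut T)`. `CompIn (Factor k) N` (file
  `Pool/Agent/Y60/DC/Def.lean`): `N` has a finite composition series all of whose factors are of this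
  kind.
* `Step k` is the smallest class of homomorphisms `π : W' → W` of groups which is closed under
  composition and under quotients (`π ∘ q` in the class, `q` surjective, then `π` in the class) and
  contains
  - all epimorphisms, split or not, with a finite kernel `N` such that `CompIn (Factor k) N`,
  - all epimorphisms, split or not, with a finite kernel `N`, for which `W'` has a normal subgroup
    `C` such that `C ∩ N = 1`, `W' / C N` is cyclic and `k` has a primitive root of unity of order
    `exp(W' / C)`,
  - all epimorphisms with a homomorphic section and a finite abelian kernel.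

The theorem: let `k` be an ample field of characteristic `0`, `K` ANY Hilbertian field which
contains `k` (so `K` need not be ample), `L` a finite Galois extension of `K` and
`Gal(L/K) = W 0 ← W 1 ← W 2 ← ...` a sequence of homomorphisms in the class `Step k`. Then `L` is
contained in a Galois extension of `K` whose group is the inverse limit of the `W i`, compatibly with
restriction to `L`. The case of a constant sequence `W 1 = W 2 = ...` is that of finite embedding
problems. For example, over every Hilbertian field `K` which contains the algebraic closure of the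
rational numbers, ALL finite embedding problems, split or not, have a proper solution if the
composition factors of the kernel are nonabelian and have cyclic outer automorphism groups.
-/

set_option autoImplicit false

open Pool.Agent.T2h2 (Step Factor)

namespace Pool.Agent.Results.MP_e9d732_al.CyclicOuter

/-- `k` is ample: existentially closed in `k((t))`. -/
def IsAmple (k : Type) [Field k] : Prop :=
  ∀ (n : ℕ) (s : Finset (MvPolynomial (Fin n) k)),
    (∃ x : Fin n → LaurentSeries k, ∀ p ∈ s, MvPolynomial.aeval x p = 0) →
    ∃ y : Fin n → k, ∀ p ∈ s, MvPolynomial.eval y p = 0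

/-- The inverse limit of the sequence `W 0 ← W 1 ← W 2 ← ...`: the group of all sequences `x` with
`p i (x (i + 1)) = x i`. -/
abbrev InvLim {W : ℕ → Type} [∀ i, Group (W i)] (p : ∀ i, W (i + 1) →* W i) : Subgroup (∀ i, W i) :=
  Pool.Agent.TH15.IGP.Lim p

/-- The defining property of the inverse limit. -/
theorem mem_invLim {W : ℕ → Type} [∀ i, Group (W i)] (p : ∀ i, W (i + 1) →* W i)
    (x : ∀ i, W i) : x ∈ InvLim p ↔ ∀ i, p i (x (i + 1)) = x i := Iff.rfl

/-- The embedding problem over `K` given by the finite Galois extension `L` of `K` and the
projection `x ↦ e₀ (x 0)` of the inverse limit of the `W i` to `Gal(L/K)` has a proper solution: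
there are a Galois extension `F` of `K` containing `L` and an isomorphism `γ` of `Gal(F/K)` with the
inverse limit, all of whose components are continuous (have open kernel), such that the action on
`L` is `σ ↦ e₀ (component of γ σ in W 0)`. -/
def ProperSol (K L : Type) [Field K] [Field L] [Algebra K L] {W : ℕ → Type} [∀ i, Group (W i)]
    (p : ∀ i, W (i + 1) →* W i) (e₀ : W 0 ≃* (L ≃ₐ[K] L)) : Prop :=
  ∃ (F : Type) (_ : Field F) (_ : Algebra K F) (_ : Algebra L F) (_ : IsScalarTower K L F)
    (_ : IsGalois K F) (γ : (F ≃ₐ[K] F) ≃* InvLim p),
    (∀ i, IsOpen {σ : F ≃ₐ[K] F | (γ σ).1 i = 1}) ∧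
    ∀ (σ : F ≃ₐ[K] F) (x : L), σ (algebraMap L F x) = algebraMap L F (e₀ ((γ σ).1 0) x)

/-- The case of finite embedding problems, in the form of the question. -/
theorem finite_case (k : Type) [Field k] [CharZero k] (hk : IsAmple k) (K : Type) [Field K]
    [Algebra k K] (hK : Pool.Agent.H391R2.T4.HilbField K) (L G : Type) [Field L]
    [Algebra K L] [FiniteDimensional K L] [IsGalois K L] [Group G] [Finite G]
    (α : G →* (L ≃ₐ[K] L)) (hα : Function.Surjective α)
    (h : Pool.Agent.Y60.DC.CompIn (fun T _ => Factor k T) α.ker) :
    ∃ (F : Type) (_ : Field F) (_ : Algebra K F) (_ : Algebra L F)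
          (_ : IsScalarTower K L F),
          FiniteDimensional K F ∧ IsGalois K F ∧
          ∃ γ : (F ≃ₐ[K] F) ≃* G, ∀ σ : F ≃ₐ[K] F, α (γ σ) = σ.restrictNormal L :=
  Pool.Agent.T2h2.stepX_hilb_one k hk hK L G α (Step.kernel α hα inferInstance h)

end Pool.Agent.Results.MP_e9d732_al.CyclicOuter

open Pool.Agent.Results.MP_e9d732_al.CyclicOuter in
theorem Pool.Agent.Results.MP_e9d732_al.CyclicOuter.result :
    ∀ (k : Type) [Field k] [CharZero k], IsAmple k →
      ∀ (K : Type) [Field K] [Algebra k K],
      (∀ (f : Polynomial (Polynomial K)), f.Monic → Irreducible f →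
          (f.map (algebraMap (Polynomial K) (FractionRing (Polynomial K)))).Separable →
          ∀ g : Polynomial K, g ≠ 0 →
            ∃ a : K, g.eval a ≠ 0 ∧ Irreducible (f.map (Polynomial.evalRingHom a))) →
      ∀ (L : Type) [Field L] [Algebra K L] [FiniteDimensional K L] [IsGalois K L]
        (W : ℕ → Type) [∀ i, Group (W i)] (e₀ : W 0 ≃* (L ≃ₐ[K] L))
        (π : ∀ i, W (i + 1) →* W i), (∀ i, Step k (π i)) → ProperSol K L π e₀ := by
  intro k _ _ hk K _ _ hK L _ _ _ _ W _ e₀ π hp
  exact Pool.Agent.T2h2.stepX_hilb k hk hK W π hp L e₀
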