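import Mathlib
import Pool.Agent.T2h2.EQ.E
import Pool.Agent.T2h2.EQ.D1
import Pool.Agent.T2h2.EQ.D2
import Pool.Agent.TH377.IG.Spec

/-!
# The Hilbertian conjecture of Dèbes and Deschamps is a question on the symmetric polynomials

`C` is any class of groups which is closed under isomorphisms and under finite powers (all groups, the
powers of one group up to isomorphism, all nilpotent groups, ...), and `k` is any field.

(1) Suppose that the embedding problems `H ⋊ S_n → S_n`, `H` in `C` finite, for the single extension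
`k(x_1, ..., x_n) / k(e_1, ..., e_n)` (`e_i` the elementary symmetric polynomials) have proper
solutions. Then for EVERY field `K` containing `k` every finite split embedding problem over `K` with
kernel in `C` and `[L : K] + 2 ≤ n` has a regular solution, and a proper solution if `K` is Hilbertian.

(2) The following are equivalent:
  1. for every HILBERTIAN field `K` which contains `k`, the finite split embedding problems over `K`
     with kernel in `C` have proper solutions;
  2. for infinitely many `n`, the finite split embedding problems over `k(x_1, ..., x_n)` (any field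
     of fractions of the polynomial ring) with kernel in `C` have proper solutions;
  3. for all `n ≥ 1`, the embedding problems `H ⋊ S_n → S_n`, `H` in `C` finite, for the extension
     `k(x_1, ..., x_n) / k(e_1, ..., e_n)` have proper solutions;
  4. the same for infinitely many `n`.

(3) In particular the Hilbertian conjecture (`DDHilbertian`, the body of `S03429`) is equivalent to the
solvability, for infinitely many `n`, of all the embedding problems `H ⋊ S_n → S_n`, `H` finite, for
`k(x_1, ..., x_n) / k(e_1, ..., e_n)`, `k` a PRIME field (`ℚ` or `ZMod p`).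

The proper solutions of the embedding problems `H ⋊ S_n → S_n` are formulated in `GenericSol`, see
`Pool/Agent/T2h2/EQ/Def.lean`: the group `H ⋊ S_n` acts faithfully on a field `F` which contains
`k(x_1, ..., x_n)`, an element `(h, π)` acts on `k(x_1, ..., x_n)` by `x_i ↦ x_{π i}`, and the fixed
field of `H` is `k(x_1, ..., x_n)`.
-/

set_option autoImplicit false

open Pool.Agent.T2h2.EQ (GenericSol)

namespace Pool.Agent.Results.MP_e9d732_al.EquivalentForms

/-- `K` is Hilbertian. -/
def Hilbertian (K : Type) [Field K] : Prop :=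
  ∀ (f : Polynomial (Polynomial K)), f.Monic → Irreducible f →
    (f.map (algebraMap (Polynomial K) (FractionRing (Polynomial K)))).Separable →
    ∀ g : Polynomial K, g ≠ 0 →
      ∃ a : K, g.eval a ≠ 0 ∧ Irreducible (f.map (Polynomial.evalRingHom a))

/-- The embedding problem `α : G → Gal(L/K)` has a proper solution. -/
def ProperSol (K L G : Type) [Field K] [Field L] [Algebra K L] [IsGalois K L] [Group G]
    (α : G →* (L ≃ₐ[K] L)) : Prop :=
  ∃ (F : Type) (_ : Field F) (_ : Algebra K F) (_ : Algebra L F) (_ : IsScalarTower K L F),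
    FiniteDimensional K F ∧ IsGalois K F ∧
    ∃ γ : (F ≃ₐ[K] F) ≃* G, ∀ σ : F ≃ₐ[K] F, α (γ σ) = σ.restrictNormal L

/-- The embedding problem `α : G → Gal(L/K)` has a regular solution over `K(t)`. -/
def RegularSol (K L G : Type) [Field K] [Field L] [Algebra K L] [Group G]
    (α : G →* (L ≃ₐ[K] L)) : Prop :=
  ∃ (F : Type) (_ : Field F) (_ : Algebra (RatFunc K) F) (_ : Algebra L F)
    (_ : Algebra K F) (_ : IsScalarTower K (RatFunc K) F) (_ : IsScalarTower K L F)
    (_ : FiniteDimensional (RatFunc K) F) (_ : IsGalois (RatFunc K) F)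
    (γ : (F ≃ₐ[RatFunc K] F) ≃* G),
    (∀ (σ : F ≃ₐ[RatFunc K] F) (x : L),
        σ (algebraMap L F x) = algebraMap L F (α (γ σ) x)) ∧
    ∀ y : F, IsAlgebraic L y → y ∈ Set.range (algebraMap L F)

/-- Every finite split embedding problem over `K` with kernel in `C` has a proper solution. -/
def SplitProper (C : ∀ (H : Type) [Group H], Prop) (K : Type) [Field K] : Prop :=
  ∀ (L : Type) [Field L] [Algebra K L] [FiniteDimensional K L] [IsGalois K L]
    (G : Type) [Group G] [Finite G] (α : G →* (L ≃ₐ[K] L)),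
    (∃ s : (L ≃ₐ[K] L) →* G, ∀ τ, α (s τ) = τ) → C α.ker → ProperSol K L G α

/-- Every finite split embedding problem over `K` with kernel in `C` has a regular solution. -/
def SplitRegular (C : ∀ (H : Type) [Group H], Prop) (K : Type) [Field K] : Prop :=
  ∀ (L : Type) [Field L] [Algebra K L] [FiniteDimensional K L] [IsGalois K L]
    (G : Type) [Group G] [Finite G] (α : G →* (L ≃ₐ[K] L)),
    (∃ s : (L ≃ₐ[K] L) →* G, ∀ τ, α (s τ) = τ) → C α.ker → RegularSol K L G α

/-- The class `C` is closed under isomorphisms and under finite powers. -/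
def Admissible (C : ∀ (H : Type) [Group H], Prop) : Prop :=
  (∀ (H H' : Type) [Group H] [Group H'], Nonempty (H ≃* H') → C H → C H') ∧
  ∀ (H : Type) [Group H] (m : ℕ), C H → C (Fin m → H)

/-- The embedding problems `H ⋊ S_n → S_n` with a finite `H` in `C` for the extension
`k(x_1, ..., x_n) / k(e_1, ..., e_n)` have proper solutions. -/
def SymmetricProper (C : ∀ (H : Type) [Group H], Prop) (k : Type) [Field k] (n : ℕ) : Prop :=
  ∀ (H : Type) [Group H] [Finite H] (φ : Equiv.Perm (Fin n) →* MulAut H), C H →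
    GenericSol k n H φ

/-- The Hilbertian form of the conjecture of Dèbes and Deschamps. -/
def DDHilbertian : Prop :=
  ∀ (K : Type) [Field K], Hilbertian K →
    ∀ (L : Type) [Field L] [Algebra K L] [FiniteDimensional K L] [IsGalois K L]
      (G : Type) [Group G] [Finite G] (α : G →* (L ≃ₐ[K] L)), Function.Surjective α →
      (∃ s : (L ≃ₐ[K] L) →* G, ∀ τ, α (s τ) = τ) → ProperSol K L G α

/-- Over every field `K` which contains `k`, every finite split embedding problem with kernel in `C`
and `[L : K] + 2 ≤ n` has a regular solution. -/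
def RegularUpTo (C : ∀ (H : Type) [Group H], Prop) (k : Type) [Field k] (n : ℕ) : Prop :=
  ∀ (K : Type) [Field K] [Algebra k K] (L : Type) [Field L] [Algebra K L]
    [FiniteDimensional K L] [IsGalois K L], Module.finrank K L + 2 ≤ n →
    ∀ (G : Type) [Group G] [Finite G] (α : G →* (L ≃ₐ[K] L)),
    (∃ s : (L ≃ₐ[K] L) →* G, ∀ τ, α (s τ) = τ) → C α.ker → RegularSol K L G α

/-- Over every Hilbertian field `K` which contains `k`, every finite split embedding problem with
kernel in `C` and `[L : K] + 2 ≤ n` has a proper solution. -/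
def ProperUpTo (C : ∀ (H : Type) [Group H], Prop) (k : Type) [Field k] (n : ℕ) : Prop :=
  ∀ (K : Type) [Field K] [Algebra k K], Hilbertian K → ∀ (L : Type) [Field L] [Algebra K L]
    [FiniteDimensional K L] [IsGalois K L], Module.finrank K L + 2 ≤ n →
    ∀ (G : Type) [Group G] [Finite G] (α : G →* (L ≃ₐ[K] L)),
    (∃ s : (L ≃ₐ[K] L) →* G, ∀ τ, α (s τ) = τ) → C α.ker → ProperSol K L G α

/-- The finite split embedding problems with kernel in `C` over `k(x_1, ..., x_n)` (over every field
of fractions of the polynomial ring) have proper solutions. -/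
def RationalProper (C : ∀ (H : Type) [Group H], Prop) (k : Type) [Field k] (n : ℕ) : Prop :=
  ∀ (K : Type) [Field K] [Algebra (MvPolynomial (Fin n) k) K]
    [IsFractionRing (MvPolynomial (Fin n) k) K], SplitProper C K

/-- The four forms of the Hilbertian conjecture for the class `C` over the fields which contain
`k`. -/
def Forms (C : ∀ (H : Type) [Group H], Prop) (k : Type) [Field k] : List Prop :=
  [∀ (K : Type) [Field K] [Algebra k K], Hilbertian K → SplitProper C K,
    ∀ N : ℕ, ∃ n ≥ N, RationalProper C k n,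
    ∀ n : ℕ, 1 ≤ n → SymmetricProper C k n,
    ∀ N : ℕ, ∃ n ≥ N, SymmetricProper C k n]

/-- The class of all groups. -/
def All (H : Type) [Group H] : Prop := True

theorem reg_hilb (C : ∀ (H : Type) [Group H], Prop) (K : Type) [Field K] (hK : Hilbertian K)
    (h : SplitRegular C K) : SplitProper C K := by
  intro L _ _ _ _ G _ _ α hs hker
  obtain ⟨F, i1, i2, i3, i4, i5, i6, i7, i8, γ, hγ, -⟩ := h L G α hs hker
  exact (Pool.Agent.TH377.IG.spec_hilb hK) L G α ⟨F, i1, i2, i3, i4, i5, i6, i7, i8, γ, hγ⟩

theorem symm_of_hilb (C : ∀ (H : Type) [Group H], Prop) (hC : Admissible C)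
    (k : Type) [Field k] (n : ℕ)
    (h : ∀ (K : Type) [Field K] [Algebra (MvPolynomial (Fin n) k) K]
      [IsFractionRing (MvPolynomial (Fin n) k) K], SplitProper C K) : SymmetricProper C k n := by
  intro H _ _ φ hH
  obtain ⟨h1, h2, π, hπ, hπb⟩ := Pool.Agent.T2h2.EQ.SF_galois k n
  refine Pool.Agent.T2h2.EQ.generic_of_proper k n H φ (Pool.Agent.T2h2.EQ.SF k n) π hπ hπb ?_
  intro α s hs hN
  have := Pool.Agent.T2h2.EQ.SF_frac k n
  let _ : Algebra (MvPolynomial (Fin n) k) (Pool.Agent.T2h2.EQ.SF k n) :=
    (Pool.Agent.T2h2.EQ.esy k n).toAlgebra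
  have hfin : Finite (H ⋊[φ] Equiv.Perm (Fin n)) :=
    Finite.of_equiv _ SemidirectProduct.equivProd.symm
  exact h (Pool.Agent.T2h2.EQ.SF k n) _ _ α ⟨s, hs⟩ (hC.1 _ _ hN hH)

theorem bounded (C : ∀ (H : Type) [Group H], Prop) (hC : Admissible C)
    (k : Type) [Field k] (n : ℕ) (h : SymmetricProper C k n) : RegularUpTo C k n := by
  intro K _ _ L _ _ _ _ hn G _ _ α hs hker
  obtain ⟨s, hs⟩ := hs
  rw [← IsGalois.card_aut_eq_finrank] at hn
  exact Pool.Agent.T2h2.EQ.generic_regular k K L G α.ker α s hs (MulEquiv.refl _) n hn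
    fun m φ => h (Fin m → α.ker) φ (hC.2 _ m hker)

theorem reg_of_symm (C : ∀ (H : Type) [Group H], Prop) (hC : Admissible C)
    (k : Type) [Field k] (h : ∀ N, ∃ n ≥ N, SymmetricProper C k n) (K : Type) [Field K]
    [Algebra k K] : SplitRegular C K := by
  intro L _ _ _ _ G _ _ α hs hker
  obtain ⟨n, hn, hsym⟩ := h (Module.finrank K L + 2)
  exact bounded C hC k n hsym K L hn G α hs hker

theorem bounded_hilb (C : ∀ (H : Type) [Group H], Prop) (hC : Admissible C)
    (k : Type) [Field k] (n : ℕ) (h : SymmetricProper C k n) : ProperUpTo C k n := by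
  intro K _ _ hK L _ _ _ _ hn G _ _ α hs hker
  obtain ⟨F, i1, i2, i3, i4, i5, i6, i7, i8, γ, hγ, -⟩ := bounded C hC k n h K L hn G α hs hker
  exact (Pool.Agent.TH377.IG.spec_hilb hK) L G α ⟨F, i1, i2, i3, i4, i5, i6, i7, i8, γ, hγ⟩

theorem tfae (C : ∀ (H : Type) [Group H], Prop) (hC : Admissible C) (k : Type) [Field k] :
    (Forms C k).TFAE := by
  unfold Forms
  tfae_have 1 → 3 := by
    intro h n hn
    refine symm_of_hilb C hC k n ?_
    intro K _ _ _
    let _ : Algebra k K := ((algebraMap (MvPolynomial (Fin n) k) K).comp MvPolynomial.C).toAlgebra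
    exact h K (Pool.Agent.T2h2.EQ.hilb_frac k n hn K)
  tfae_have 1 → 2 := by
    intro h N
    refine ⟨N + 1, by omega, ?_⟩
    intro K _ _ _
    let _ : Algebra k K :=
      ((algebraMap (MvPolynomial (Fin (N + 1)) k) K).comp MvPolynomial.C).toAlgebra
    exact h K (Pool.Agent.T2h2.EQ.hilb_frac k (N + 1) (by omega) K)
  tfae_have 2 → 4 := fun h N => by
    obtain ⟨n, hn, h1⟩ := h N
    exact ⟨n, hn, symm_of_hilb C hC k n h1⟩
  tfae_have 3 → 4 := fun h N => ⟨N + 1, by omega, h (N + 1) (by omega)⟩
  tfae_have 4 → 1 := fun h K _ _ hK => reg_hilb C K hK (reg_of_symm C hC k h K)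
  tfae_finish

theorem all_adm : Admissible All := ⟨fun _ _ _ _ _ _ => trivial, fun _ _ _ _ => trivial⟩

theorem dd_hilb_iff : DDHilbertian ↔ ∀ (K : Type) [Field K], Hilbertian K → SplitProper All K :=
  ⟨fun h K _ hK L _ _ _ _ G _ _ α hs _ => h K hK L G α (fun τ => ⟨_, hs.choose_spec τ⟩) hs,
    fun h K _ hK L _ _ _ _ G _ _ α _ hs => h K hK L G α hs trivial⟩

theorem dd_prime_iff : DDHilbertian ↔
    (∀ N : ℕ, ∃ n ≥ N, SymmetricProper All ℚ n) ∧
    ∀ (p : ℕ) [Fact p.Prime], ∀ N : ℕ, ∃ n ≥ N, SymmetricProper All (ZMod p) n := by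
  rw [dd_hilb_iff]
  constructor
  · intro h
    have h0 : ∀ (k : Type) [Field k], ∀ N : ℕ, ∃ n ≥ N, SymmetricProper All k n := by
      intro k _
      have h1 : (∀ (K : Type) [Field K] [Algebra k K], Hilbertian K → SplitProper All K) ↔
          ∀ N : ℕ, ∃ n ≥ N, SymmetricProper All k n := (tfae All all_adm k).out 0 3
      exact h1.1 (fun K _ _ hK => h K hK)
    exact ⟨h0 ℚ, fun p _ => h0 (ZMod p)⟩
  · rintro ⟨h0, hp⟩ K _ hK
    obtain ⟨p, hp'⟩ := CharP.exists K
    rcases CharP.char_is_prime_or_zero K p with h | h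
    · have : Fact p.Prime := ⟨h⟩
      let _ : Algebra (ZMod p) K := ZMod.algebra K p
      exact reg_hilb All K hK (reg_of_symm All all_adm (ZMod p) (hp p) K)
    · subst h
      have : CharZero K := CharP.charP_to_charZero K
      exact reg_hilb All K hK (reg_of_symm All all_adm ℚ h0 K)

end Pool.Agent.Results.MP_e9d732_al.EquivalentForms

open Pool.Agent.Results.MP_e9d732_al.EquivalentForms in
theorem Pool.Agent.Results.MP_e9d732_al.EquivalentForms.result :
    (∀ (C : ∀ (H : Type) [Group H], Prop), Admissible C → ∀ (k : Type) [Field k],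
      -- (1)
      (∀ n : ℕ, SymmetricProper C k n → RegularUpTo C k n ∧ ProperUpTo C k n) ∧
      -- (2)
      (Forms C k).TFAE) ∧
    -- (3)
    (DDHilbertian ↔ (∀ N : ℕ, ∃ n ≥ N, SymmetricProper All ℚ n) ∧
      ∀ (p : ℕ) [Fact p.Prime], ∀ N : ℕ, ∃ n ≥ N, SymmetricProper All (ZMod p) n) :=
  ⟨fun C hC k _ => ⟨fun n h => ⟨bounded C hC k n h, bounded_hilb C hC k n h⟩, tfae C hC k⟩,
    dd_prime_iff⟩
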