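import Mathlib
import Pool.Agent.T2h2.MobF

/-!
# Proper solutions over Hilbertian fields which contain an ample field: Moebius transformations

`k` is an ample field of characteristic `0` (no roots of unity are required) and `K` is ANY Hilbertian
field which contains `k` (so `K` need not be ample).

The definitions of the class `MStep k` of homomorphisms `W' → W` of groups are in the file
`Pool/Agent/T2h2/MobCls.lean`:

* `MFactor k T`: `T` is a nonabelian simple group, `Inn T` has a complement `Θ` in `Aut T`, and `Θ`
  has a representation of degree two over `k` in which only `1` acts as a scalar. For example, this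
  holds for every `k` if `Aut T → Out T` splits and `Out T` has at most `3` elements (as for the
  alternating groups except `A_6`, the groups `PSL_2(p)`, the sporadic groups).
* `MStep k` is the smallest class of homomorphisms which is closed under composition and quotients
  (`π ∘ q` in the class, `q` surjective, then `π` in the class) and contains
  - all epimorphisms, SPLIT OR NOT, with a finite kernel all of whose composition factors are
    `MFactor`s of `k`,
  - the projections `A^n ⋊ W → W`, where `A` is ANY finite group and `W` acts on `A^n` through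
    `(A ⋊ Θ) ≀ S_n`; here `Θ` is a finite group which acts on `A` and has a representation of degree
    two over `k` such that the elements of `Θ` which act as scalars act trivially on `A`,
  - all epimorphisms with a homomorphic section and a finite abelian kernel.

The theorem, for a finite Galois extension `L/K`:

(1) If `Gal(L/K) = W 0 ← W 1 ← W 2 ← ...` are homomorphisms in the class `MStep k`, then `L` is contained
in a Galois extension of `K` whose group is the inverse limit of the `W i`, compatibly with the
restriction to `L`.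

(2) Let `z` in `L` be transcendental over `k` such that every `γ` in `Gal(L/K)` acts on `z` as a Moebius
transformation with coefficients in `k` (that is, `k(z)` is stable under `Gal(L/K)`). Let `G → Gal(L/K)` be
an epimorphism of finite groups with a homomorphic section `s` such that `s γ` centralises the kernel
whenever `γ z = z`. Then the embedding problem has a proper solution. For example, if `L = K(z)`, then
ALL finite split embedding problems for `L/K` have proper solutions; here `Gal(L/K)` can be any finite
subgroup of `PGL_2(k)`.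
-/

set_option autoImplicit false

open Pool.Agent.T2h2 (MStep MFactor)

namespace Pool.Agent.Results.MP_e9d732_al.Moebius

/-- `k` is ample: existentially closed in `k((t))`. -/
def IsAmple (k : Type) [Field k] : Prop :=
  ∀ (n : ℕ) (s : Finset (MvPolynomial (Fin n) k)),
    (∃ x : Fin n → LaurentSeries k, ∀ p ∈ s, MvPolynomial.aeval x p = 0) →
    ∃ y : Fin n → k, ∀ p ∈ s, MvPolynomial.eval y p = 0

/-- The inverse limit of the sequence `W 0 ← W 1 ← W 2 ← ...`: the group of all sequences `x` with
`p i (x (i + 1)) = x i`. -/
abbrev InvLim {W : ℕ → Type} [∀ i, Group (W i)] (p : ∀ i, W (i + 1) →* W i) : Subgroup (∀ i, W i) :=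
  Pool.Agent.TH15.IGP.Lim p

/-- The defining property of the inverse limit. -/
theorem mem_invLim {W : ℕ → Type} [∀ i, Group (W i)] (p : ∀ i, W (i + 1) →* W i)
    (x : ∀ i, W i) : x ∈ InvLim p ↔ ∀ i, p i (x (i + 1)) = x i := Iff.rfl

/-- The embedding problem over `K` given by the finite Galois extension `L` of `K` and the
projection `x ↦ e₀ (x 0)` of the inverse limit of the `W i` to `Gal(L/K)` has a proper solution:
there are a Galois extension `F` of `K` containing `L` and an isomorphism `γ` of `Gal(F/K)` with the
inverse limit, all of whose components are continuous (have open kernel), such that the action on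
`L` is `σ ↦ e₀ (component of γ σ in W 0)`. -/
def ProperSol (K L : Type) [Field K] [Field L] [Algebra K L] {W : ℕ → Type} [∀ i, Group (W i)]
    (p : ∀ i, W (i + 1) →* W i) (e₀ : W 0 ≃* (L ≃ₐ[K] L)) : Prop :=
  ∃ (F : Type) (_ : Field F) (_ : Algebra K F) (_ : Algebra L F) (_ : IsScalarTower K L F)
    (_ : IsGalois K F) (γ : (F ≃ₐ[K] F) ≃* InvLim p),
    (∀ i, IsOpen {σ : F ≃ₐ[K] F | (γ σ).1 i = 1}) ∧
    ∀ (σ : F ≃ₐ[K] F) (x : L), σ (algebraMap L F x) = algebraMap L F (e₀ ((γ σ).1 0) x)

/-- The finite embedding problem `α : G → Gal(L/K)` has a proper solution. -/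
def FinProperSol (K L G : Type) [Field K] [Field L] [Algebra K L] [IsGalois K L] [Group G]
    (α : G →* (L ≃ₐ[K] L)) : Prop :=
  ∃ (F : Type) (_ : Field F) (_ : Algebra K F) (_ : Algebra L F) (_ : IsScalarTower K L F),
    FiniteDimensional K F ∧ IsGalois K F ∧
    ∃ γ : (F ≃ₐ[K] F) ≃* G, ∀ σ : F ≃ₐ[K] F, α (γ σ) = σ.restrictNormal L

/-- `z` is transcendental over `k`, and every `γ` in `Gal(L/K)` acts on it as a Moebius
transformation `z ↦ (a z + b) / (c z + d)` with coefficients in `k`. -/
def MoebiusElement (k K L : Type) [Field k] [Field K] [Field L] [Algebra k K] [Algebra K L] (z : L) :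
    Prop :=
  (∀ p : Polynomial k, p ≠ 0 → p.eval₂ ((algebraMap K L).comp (algebraMap k K)) z ≠ 0) ∧
  ∀ γ : L ≃ₐ[K] L, ∃ a b c d : k, a * d - b * c ≠ 0 ∧
    (algebraMap K L (algebraMap k K c) * z + algebraMap K L (algebraMap k K d)) * γ z =
      algebraMap K L (algebraMap k K a) * z + algebraMap K L (algebraMap k K b)

theorem moebius_reg (k : Type) [Field k] [CharZero k] (hk : IsAmple k) (K L : Type) [Field K]
    [Algebra k K] [Field L] [Algebra K L] [FiniteDimensional K L] [IsGalois K L] (z : L)
    (hz : MoebiusElement k K L z) (G : Type) [Group G] [Finite G] (α : G →* (L ≃ₐ[K] L))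
    (s : (L ≃ₐ[K] L) →* G) (hs : ∀ γ, α (s γ) = γ)
    (hfix : ∀ γ : L ≃ₐ[K] L, γ z = z → ∀ x, α x = 1 → s γ * x = x * s γ) :
    Pool.Agent.H391R2.T4.RegSol K L G α := by
  let _ : Algebra k L := ((algebraMap K L).comp (algebraMap k K)).toAlgebra
  have : IsScalarTower k K L := IsScalarTower.of_algebraMap_eq fun _ => rfl
  refine Pool.Agent.T2h2.thmM k K L G hk α s hs z ?_ ?_ hfix
  · rintro ⟨p, hp, hp0⟩
    exact hz.1 p hp hp0
  · exact hz.2

end Pool.Agent.Results.MP_e9d732_al.Moebius

open Pool.Agent.Results.MP_e9d732_al.Moebius in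
theorem Pool.Agent.Results.MP_e9d732_al.Moebius.result :
    ∀ (k : Type) [Field k] [CharZero k], IsAmple k →
      ∀ (K : Type) [Field K] [Algebra k K],
      (∀ (f : Polynomial (Polynomial K)), f.Monic → Irreducible f →
          (f.map (algebraMap (Polynomial K) (FractionRing (Polynomial K)))).Separable →
          ∀ g : Polynomial K, g ≠ 0 →
            ∃ a : K, g.eval a ≠ 0 ∧ Irreducible (f.map (Polynomial.evalRingHom a))) →
      ∀ (L : Type) [Field L] [Algebra K L] [FiniteDimensional K L] [IsGalois K L],
      (∀ (W : ℕ → Type) [∀ i, Group (W i)] (e₀ : W 0 ≃* (L ≃ₐ[K] L))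
        (π : ∀ i, W (i + 1) →* W i), (∀ i, MStep k (π i)) → ProperSol K L π e₀) ∧
      ∀ z : L, MoebiusElement k K L z →
        ∀ (G : Type) [Group G] [Finite G] (α : G →* (L ≃ₐ[K] L)) (s : (L ≃ₐ[K] L) →* G),
        (∀ γ, α (s γ) = γ) →
        (∀ γ : L ≃ₐ[K] L, γ z = z → ∀ x, α x = 1 → s γ * x = x * s γ) →
        FinProperSol K L G α := by
  intro k _ _ hk K _ _ hK L _ _ _ _
  refine ⟨fun W _ e₀ π hp => Pool.Agent.T2h2.stepM_hilb k hk hK W π hp L e₀, ?_⟩
  intro z hz G _ _ α s hs hfix
  obtain ⟨F, i1, i2, i3, i4, i5, i6, i7, i8, γ, hγ, -⟩ := moebius_reg k hk K L z hz G α s hs hfix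
  exact (Pool.Agent.TH377.IG.spec_hilb hK) L G α ⟨F, i1, i2, i3, i4, i5, i6, i7, i8, γ, hγ⟩
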