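import Mathlib
import Pool.Agent.T2h8.RF.Stable

/-!
# Proper solutions over Hilbertian fields of embedding problems whose kernel acts as a reflection group

`K` is ANY Hilbertian field (of any characteristic) and `L/K` any finite Galois extension. The
definitions are in the file `Pool/Agent/T2h8/RF/RClsDef.lean`:

* `IsRefl A`: the matrix `A` is `1` plus a column times a row, that is, it fixes all vectors of a
  hyperplane (it is a reflection, of any order, or the identity).
* `SemiReflRep K L α`, for a homomorphism `α : G → Gal(L/K)`: there is a semilinear representation of `G`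
  on a vector space `L ^ m` (`ρ (g h) = ρ g · (α g) (ρ h)`) in which the kernel of `α` is faithful and
  generated by reflections.
* `RCls K` is the smallest class of homomorphisms `p : W' → W` of groups which is closed under
  composition and quotients (`p ∘ q` in the class, `q` surjective, then `p` in the class) and contains
  - all epimorphisms, SPLIT OR NOT, with a finite kernel of order prime to the characteristic of `K`,
    such that `W'` has a linear representation over `K` in which the kernel is faithful and generated
    by reflections (for example all `A ⋊ W → W`, where `A` is a finite subgroup of `GL_m(K)` generated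
    by reflections, such as a Weyl group, and `W` acts through the normaliser of `A` in `GL_m(K)`),
  - the class `Cls K` of the starting files (which contains all split epimorphisms with a finite
    abelian kernel, and some wreath product kernels).

The theorem:

(1) Let `G` be a finite group and `α : G → Gal(L/K)` a surjective homomorphism, SPLIT OR NOT, with kernel
of order prime to the characteristic of `K`, with a representation as in `SemiReflRep`. Then the
embedding problem has a proper solution over `K`.

(2) In particular, let `A` be a finite subgroup of `GL_m(L)` which is generated by reflections, of order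
prime to the characteristic, and stable under the action of `Gal(L/K)` on the matrix entries. Then the
split embedding problem `A ⋊ Gal(L/K) → Gal(L/K)` has a proper solution over `K`.

(3) If `W 0 → Gal(L/K)` is as in (1) (for example an isomorphism) and `W 0 ← W 1 ← W 2 ← ...` are
homomorphisms in the class `RCls K`, then `L` is contained in a Galois extension of `K` whose group is
the inverse limit of the `W i`, compatibly with the restriction to `L`.

The proof contains the theorem of Chevalley, Shephard and Todd for semilinear actions: the ring of
invariants of `G` in `L[X_1, ..., X_m]` is a polynomial ring over `K`. In characteristic `0` we follow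
Chevalley; in characteristic `p` the algebraic independence of the generators is proved with the
Frobenius homomorphism and Lech's lemma.
-/

set_option autoImplicit false

open Pool.Agent.T2h8.RF (IsRefl SemiReflRep RCls)

namespace Pool.Agent.Results.MP_e9d732_al.ReflectionKernels

/-- The inverse limit of the sequence `W 0 ← W 1 ← W 2 ← ...`: the group of all sequences `x` with
`p i (x (i + 1)) = x i`. -/
abbrev InvLim {W : ℕ → Type} [∀ i, Group (W i)] (p : ∀ i, W (i + 1) →* W i) : Subgroup (∀ i, W i) :=
  Pool.Agent.TH15.IGP.Lim p

/-- The defining property of the inverse limit. -/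
theorem mem_invLim {W : ℕ → Type} [∀ i, Group (W i)] (p : ∀ i, W (i + 1) →* W i)
    (x : ∀ i, W i) : x ∈ InvLim p ↔ ∀ i, p i (x (i + 1)) = x i := Iff.rfl

/-- The embedding problem over `K` given by the finite Galois extension `L` of `K` and the
homomorphism `x ↦ α (x 0)` of the inverse limit of the `W i` to `Gal(L/K)` has a proper solution:
there are a Galois extension `F` of `K` containing `L` and an isomorphism `γ` of `Gal(F/K)` with the
inverse limit, all of whose components are continuous (have open kernel), such that the action on
`L` is `σ ↦ α (component of γ σ in W 0)`. -/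
def ProperSol (K L : Type) [Field K] [Field L] [Algebra K L] {W : ℕ → Type} [∀ i, Group (W i)]
    (p : ∀ i, W (i + 1) →* W i) (α : W 0 →* (L ≃ₐ[K] L)) : Prop :=
  ∃ (F : Type) (_ : Field F) (_ : Algebra K F) (_ : Algebra L F) (_ : IsScalarTower K L F)
    (_ : IsGalois K F) (γ : (F ≃ₐ[K] F) ≃* InvLim p),
    (∀ i, IsOpen {σ : F ≃ₐ[K] F | (γ σ).1 i = 1}) ∧
    ∀ (σ : F ≃ₐ[K] F) (x : L), σ (algebraMap L F x) = algebraMap L F (α ((γ σ).1 0) x)

/-- The finite embedding problem `α : G → Gal(L/K)` has a proper solution. -/
def FinProperSol (K L G : Type) [Field K] [Field L] [Algebra K L] [IsGalois K L] [Group G]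
    (α : G →* (L ≃ₐ[K] L)) : Prop :=
  ∃ (F : Type) (_ : Field F) (_ : Algebra K F) (_ : Algebra L F) (_ : IsScalarTower K L F),
    FiniteDimensional K F ∧ IsGalois K F ∧
    ∃ γ : (F ≃ₐ[K] F) ≃* G, ∀ σ : F ≃ₐ[K] F, α (γ σ) = σ.restrictNormal L

end Pool.Agent.Results.MP_e9d732_al.ReflectionKernels

open Pool.Agent.Results.MP_e9d732_al.ReflectionKernels in
theorem Pool.Agent.Results.MP_e9d732_al.ReflectionKernels.result :
    ∀ (K : Type) [Field K],
      (∀ (f : Polynomial (Polynomial K)), f.Monic → Irreducible f →
          (f.map (algebraMap (Polynomial K) (FractionRing (Polynomial K)))).Separable →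
          ∀ g : Polynomial K, g ≠ 0 →
            ∃ a : K, g.eval a ≠ 0 ∧ Irreducible (f.map (Polynomial.evalRingHom a))) →
      ∀ (L : Type) [Field L] [Algebra K L] [FiniteDimensional K L] [IsGalois K L],
      (∀ (G : Type) [Group G] [Finite G] (α : G →* (L ≃ₐ[K] L)), Function.Surjective α →
        (Nat.card α.ker : K) ≠ 0 → SemiReflRep K L α → FinProperSol K L G α) ∧
      (∀ (m : ℕ) (A : Subgroup (GL (Fin m) L)) [Finite A], (Nat.card A : K) ≠ 0 →
        A ≤ Subgroup.closure {a | a ∈ A ∧ IsRefl (a : Matrix (Fin m) (Fin m) L)} →
        ∀ φ : (L ≃ₐ[K] L) →* MulAut A,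
          (∀ (γ : L ≃ₐ[K] L) (a : A),
            (((φ γ a : A) : GL (Fin m) L) : Matrix (Fin m) (Fin m) L) =
              ((a : GL (Fin m) L) : Matrix (Fin m) (Fin m) L).map γ) →
          FinProperSol K L (A ⋊[φ] (L ≃ₐ[K] L)) SemidirectProduct.rightHom) ∧
      ∀ (W : ℕ → Type) [∀ i, Group (W i)] [Finite (W 0)] (α : W 0 →* (L ≃ₐ[K] L))
        (p : ∀ i, W (i + 1) →* W i), Function.Surjective α → (Nat.card α.ker : K) ≠ 0 →
        SemiReflRep K L α → (∀ i, RCls K (p i)) → ProperSol K L p α := by
  intro K _ hK L _ _ _ _
  refine ⟨?_, ?_, ?_⟩
  · intro G _ _ α hα hker h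
    exact Pool.Agent.TH59.WX.hil_of_reg K L G hK α
      (Pool.Agent.T2h8.RF.SemiReflRep.regSol K L G α hα hker h)
  · intro m A _ hcard hA φ hφ
    have hfin : Finite (A ⋊[φ] (L ≃ₐ[K] L)) :=
      Finite.of_equiv _ SemidirectProduct.equivProd.symm
    exact Pool.Agent.TH59.WX.hil_of_reg K L _ hK _
      (Pool.Agent.T2h8.RF.stable_regSol K L m A hcard hA φ hφ)
  · intro W _ hW α p hα hker h hp
    exact Pool.Agent.T2h8.RF.refl_hilb hK W p hp L hW α hα hker h
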